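import Pool.Agent.N536.MW.Ext

/-!
# The index law for the monodromy-weight conjecture

Let `K` be a local field with residue field with `q` elements, and let `H^m(X)` be the `ℓ`-adic
cohomology groups of the smooth projective varieties `X` over `K` (more generally, of the varieties of
a class `P` such that `X × Y` is in `P` if and only if `X` and `Y` are; `IsLocalOn P T q`), with the
action `F` of a geometric Frobenius element and with the monodromy operator `N`.

For a variety `Y` let `i(Y)` be the dimension of the kernel of `N` on the whole cohomology of `Y` (the
number of the invariants of a small open subgroup of inertia), and let `p(Y)` be the number of the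
eigenvalues of `F` on the groups `H^m(Y)` of weight `m` or `m + 1`. If the monodromy-weight conjecture
holds for `Y` then `i(Y) = p(Y)`, because every Jordan block of `N` has exactly one middle eigenvalue
of weight `m` or `m + 1`.

Theorem. (1) The monodromy-weight conjecture holds for all `H^m(X)` if and only if
`i(X × X) = p(X × X)`.

(2) If `N ≠ 0` on the cohomology of `X`, then `i(X ^ n) / p(X ^ n)` tends to a real number `κ ≥ 1`, and
`κ = 1` if and only if the monodromy-weight conjecture holds for `X`. Here `κ^2` is the sum of the
squares `(w - m)^2`, over the eigenvalues of `F` on the `H^m(X)` with weight `w`, divided by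
`2 ∑ k rank (N ^ k)`.

Proof. Choose a basis of strings `x, N x, N^2 x, ...` of vectors with weights. A string with highest
excess `t` and length `l` gives the weights `t, t - 2, ..., t - 2 l`, instead of `l, l - 2, ..., -l`. The
numbers `i(X ^ n)` and `p(X ^ n)` are the numbers of the `n`-tuples of basis vectors with sum of the
expected, resp. of the true excesses equal to `0` or `1`, so that (2) follows from the local limit
theorem, and (1) from an injection between the two sets of pairs of basis vectors.
-/

set_option autoImplicit false

open Filter Topology

namespace Pool.Agent.Results.MP_cd312e_ag.IndexLaw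

universe u v w

open Pool.Agent.H914 Pool.Agent.Y163.MW Pool.Agent.N536.MW

/-- **The index law for the monodromy-weight conjecture.** -/
theorem result {K : Type u} [Field K] {Ω : Type w} [Field Ω] [CharZero Ω] [IsAlgClosed Ω]
    {P : SmVar.{u} K → Prop} {T : Theory.{u, v, w} K Ω} {q : ℕ} (hT : IsLocalOn P T q) (hq : 1 < q)
    (X : SmVar.{u} K) (hX : P X) :
    ((T.H (X.prod X)).inv = (T.H (X.prod X)).pred q ↔ ∀ m, (T.H X).MWPure q m) ∧
    ((T.H X).N ≠ 0 → ∃ κ : ℝ, κ ^ 2 * (T.H X).totRankMoment = (T.H X).totWeightMoment q ∧
      1 ≤ κ ∧ (κ = 1 ↔ ∀ m, (T.H X).MWPure q m) ∧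
      Tendsto (fun n : ℕ => ((T.H (pow X n)).inv : ℝ) / ((T.H (pow X n)).pred q : ℝ)) atTop
        (𝓝 κ)) :=
  lawOn hT hq X hX

end Pool.Agent.Results.MP_cd312e_ag.IndexLaw
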