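import Pool.Agent.N184.HP.Main

/-!
# Monodromy and Hodge numbers: maximal monodromy implies the weight-monodromy conjecture

The definitions are in `Pool.Agent.N184.HP.Defs`, `Pool.Agent.N184.WM.Defs`,
`Pool.Agent.N184.WM.SlopeDefs` and `Pool.Agent.Y143.Defs`.

Let `V = H^m(X_{\bar K})`, with `Φ` a geometric Frobenius element, `N` the logarithm of the monodromy,
`h i = h^(i, m - i)` the Hodge numbers and `gr_s` the graded pieces of the monodromy filtration.
Consider three polygons: the monodromy polygon with the slopes `(m + s) / 2` (with multiplicity
`dim gr_s`), the weight polygon with the slopes `w / 2` (with multiplicity the number of Frobenius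
eigenvalues of weight `w`) and the Hodge polygon with the slopes `i` (with multiplicity `h i`). The
first lies above the second one (because of Poincare duality), and they agree if and only if `V` is mw
pure. If the characteristic polynomial of `Φ` is rational then the second one lies above the Newton
polygon, which lies above the Hodge polygon. So monodromy is bounded by the Hodge numbers, and when
the bound is attained then the first two polygons agree.
-/

set_option autoImplicit false

namespace Pool.Agent.Results.MP_cd312e_ag.MonodromyAndHodgeNumbers

universe u v

open Module Pool.Agent.Y143 Pool.Agent.N184.WM Pool.Agent.N184.HP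

/-- Let `V = H^m(X_{\bar K}, Ω)`, with `Φ`, `N` and the form `B` (`IsCohomology`: known properties),
for `X` projective and semistable over a henselian discrete valuation ring `O` of mixed characteristic
with residue field of `q` elements. Suppose that the characteristic polynomial of `Φ` has rational
coefficients (for example because the other cohomology groups of `X` are spanned by algebraic
classes) and that its Newton polygon lies above the Hodge polygon with the Hodge numbers
`h i = h^(i, m - i)` (this is known if it is also the characteristic polynomial of the Frobenius on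
the `p`-adic cohomology `H^m`).

(1) For all `a` the sum of the ranks of `N ^ (a + 1)`, `N ^ (a + 3)`, `N ^ (a + 5)`, ... is at most the
sum of `(m - a - 2 i) h i` over all `i` with `2 i < m - a`.

(2) If there is equality for `a`, then for all `s` with `|s| ≥ a` and `s ≡ a` modulo `2` the graded
piece `gr_s` of the monodromy filtration is pure of weight `m + s`.

(3) If for `a = 0` and for `a = 1` there is equality, or all `gr_s` with `s ≡ a` modulo `2` are zero,
then `V` is mw pure of weight `m`. -/
theorem result {Ω : Type u} [Field Ω] [CharZero Ω] [IsAlgClosed Ω] {V : Type v} [AddCommGroup V]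
    [Module Ω V] [FiniteDimensional Ω V] {q m : ℕ} (hq : 1 < q) {Φ N : Module.End Ω V}
    {B : V →ₗ[Ω] V →ₗ[Ω] Ω} (H : IsCohomology q m Φ N B) (hP : HasRationalPoly Φ)
    {R : ValuationSubring Ω} {val : Ω → ℝ} (hv : IsValFor q R val) {h : ℕ → ℕ}
    (hNH : NewtonAboveHodge val Φ h) :
    (∀ a : ℕ, monodromySum N m a ≤ hodgeSum h (m - a)) ∧
    (∀ a : ℕ, monodromySum N m a = hodgeSum h (m - a) →
      ∀ s : ℤ, (a : ℤ) ≤ |s| → 2 ∣ s - a → IsPureAt q m Φ N s) ∧
    ((monodromySum N m 0 = hodgeSum h m ∨ NoPiece N 0) →
      (monodromySum N m 1 = hodgeSum h (m - 1) ∨ NoPiece N 1) → IsMWPure q m Φ N) :=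
  ⟨fun a => (monodromy_le_hodge hq H hP hv hNH a).1,
    fun _ ha _ hs hs2 => pure_of_eq hq H hP hv hNH ha hs hs2,
    fun h0 h1 => mwPure_of_eq hq H hP hv hNH h0 h1⟩

end Pool.Agent.Results.MP_cd312e_ag.MonodromyAndHodgeNumbers
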