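import Pool.Agent.N992.WL.Main

/-!
# MP_cd312e_ag: the `ℓ`-adic monodromy-weight conjecture and Galois invariants

Let `K` be a finite extension of `ℚ_p` with residue field of `q` elements, and `ℓ ≠ p`. Let `X` run
through the smooth projective schemes over finite totally ramified extensions `L` of `K` whose
cohomology has unipotent inertia action. Each smooth projective scheme over `K` becomes of this kind over
some `L`, and the conjecture does not change under finite extensions. The following are equivalent.

1. The monodromy-weight conjecture for `H^m(X)`, for all `X` and `m`.
2. `H^m(X)(r)^G = 0` for all `X` and all `m < 2 r`, where `G` is the Galois group of `L`.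
3. `H^(2 r - 1)(X)(r)^G = 0` for all `X` and all `r > 0`.

That 1 implies 2 is known. The point is that 3 implies 1: the conjecture, a statement on all Jordan blocks
of the monodromy operator and all Frobenius eigenvalues, follows if there are no invariant classes in the
degree just below that of algebraic cycles.

Sketch. By Poincaré duality it is enough to show that `x = 0` if `x ∈ H^m(X)` has weight `m + t + 1` and
`N ^ (t + 1) x = 0`, and one may take an eigenvector of the Frobenius. The vectors `x, N x, ..., N ^ t x`
define an `N`-equivariant map `Sym ^ t H^1(E) → H^m(X)` for a Tate curve `E`, hence a class in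
`H^m(X) ⊗ Sym ^ t H^1(E) ⊆ H^(m + t)(X × E ^ t)`, which is killed by `N` and has weight `(m + t) + 1`. So
let `t = 0`. The Frobenius eigenvalue of `x` is a Weil number of weight `m + 1`. It occurs on
`H^(m + 1)(Z)` for an abelian variety `Z` with good reduction over an unramified extension of `L`, seen as
a scheme over `L` (Honda and Tate, Zarhin's trick, and the lifting of principally polarised abelian
varieties). The product of `x` with the dual eigenclass of `Z` is an invariant class in
`H^(2 e - 1)(X × Z)(e)`, `e = dim Z`, which is zero by 3.

In `WeightMonodromy` the weight filtration is the one by the absolute values of the eigenvalues of the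
Frobenius, which are known to be Weil numbers of integral weights.
-/

namespace Pool.Agent.Results.MP_cd312e_ag.NoInvariantsBelowTate

open Pool.Agent.N992.WL

theorem result (T : LocalTheory) (hT : IsLocalTheory T) :
    ((∀ X r, 0 < r → NoInvariants T X (2 * r - 1) r) ↔ ∀ X m, WeightMonodromy T X m) ∧
      ((∀ X m r, m < 2 * r → NoInvariants T X m r) ↔ ∀ X m, WeightMonodromy T X m) :=
  main hT

end Pool.Agent.Results.MP_cd312e_ag.NoInvariantsBelowTate
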