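import Pool.Agent.N184.WM.ThreeMax

/-!
# The weight-monodromy conjecture for threefolds with `N ^ 2` of maximal rank on `H^3`

For example, for Calabi-Yau threefolds (with `H^1(O) = H^2(O) = 0`) with `N ^ 2 ≠ 0` on `H^3`.
-/

namespace Pool.Agent.Results.MP_cd312e_ag.ThreefoldsMaximalNSquared

universe u v

open Module Pool.Agent.Y143 Pool.Agent.X302.MW Pool.Agent.N184.WM

/-- **The weight-monodromy conjecture for threefolds with `N ^ 2` of maximal rank.** Let `X_K` be a
smooth projective threefold over a `p`-adic field `K` with a projective strictly semistable model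
over the ring of integers, whose residue field has `q` elements, and `h = h^(3, 0)(X_K)`. Here `X` is
the `ℓ`-adic theory (weight spectral sequence of Rapoport and Zink) and `X'` is the `p`-adic theory
(crystalline cohomology of the strata, Hyodo-Kato cohomology, weight spectral sequence of Mokrane),
with coefficients in algebraically closed fields `Ω` and `Ω'`. Suppose that the rank of `N ^ 2` on
the Hyodo-Kato cohomology `H^3` is at least `2 h`. Then every `H^k` is mw pure in the `ℓ`-adic
theory: all eigenvalues of the geometric Frobenius on the graded piece `gr_s` of the monodromy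
filtration are `q`-Weil numbers of weight `k + s`.

The hypotheses are the following.

* `hI`, `hI'`, `hC0`, `hC1` (known, Deligne and Katz-Messing): the Frobenius eigenvalues on the
  strata are algebraic integers, and the Frobenius has the same rational characteristic polynomial
  on `H^2(Y^(1))`, and on `H^2(Y^(2))`, in the two theories.
* `h2`: the multiplicities of conjugate non-Tate eigenvalues on the part of weight two of `H^2` of
  the generic fibre are the same in the two theories; for example because there are none, if
  `h^(2, 0) = 0`.
* `hNH` (known): the Newton polygon of the Hyodo-Kato cohomology `H^3` lies above the Hodge polygon.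
* `hrk`: the rank of `N ^ 2` on `H^3` is at least `2 h`.
* `hT`: the Tate conjecture for divisors on the components of the special fibre. -/
theorem result {Ω : Type u} [Field Ω] [CharZero Ω] [IsAlgClosed Ω] {Γ : Type}
    {Ω' : Type u} [Field Ω'] [CharZero Ω'] [IsAlgClosed Ω'] {Γ' : Type} {q : ℕ}
    (hq : IsPrimePow q) (X : Degeneration.{u, v} Ω Γ 3 q) (A : DivisorClasses X.toSpecialFibre)
    (X' : Degeneration.{u, v} Ω' Γ' 3 q) (A' : DivisorClasses X'.toSpecialFibre)
    (hI : HasIntegralFrobenius X.toSpecialFibre) (hI' : HasIntegralFrobenius X'.toSpecialFibre)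
    (hC0 : SameFrobenius X.toSpecialFibre X'.toSpecialFibre 0 2)
    (hC1 : SameFrobenius X.toSpecialFibre X'.toSpecialFibre 1 2)
    (h2 : SameOnH2 X.toSpecialFibre X'.toSpecialFibre) (R : ValuationSubring Ω') (val : Ω' → ℝ)
    (hv : IsValFor q R val) (h : ℕ) (hNH : NewtonAbove val (X'.actV 3 X'.frob) h)
    (hrk : 2 * h ≤ rankPow (X'.N 3) 2) (hT : A.TateConj 0) (k : ℕ) :
    IsMWPure q k (X.actV k X.frob) (X.N k) :=
  mw_three_max X A X' A' hq hI hI' hC0 hC1 h2 R val hv h hNH hrk hT k

end Pool.Agent.Results.MP_cd312e_ag.ThreefoldsMaximalNSquared
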